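import Mathlib
import Pool.Agent.W188.QS.Stm2

set_option autoImplicit false

/-!
Project QS part 2 (helper188), piece QS2-QB: the integral of `Q` on the line `Re s = 4`, many lines.
-/

open Complex MeasureTheory Set Filter Topology

namespace Pool.Agent.W327.QS

open Pool.Agent.W188.QS

lemma norm_zeta_le_two {s : ℂ} (hs : 2 ≤ s.re) : ‖riemannZeta s‖ ≤ 2 := by
  rw [zeta_eq_tsum_one_div_nat_add_one_cpow (by linarith)]
  have hterm : ∀ n : ℕ, ‖1 / ((n : ℂ) + 1) ^ s‖ ≤ 1 / ((n : ℝ) + 1) ^ 2 := by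
    intro n
    have h1 : ((n : ℂ) + 1) = (((n : ℝ) + 1 : ℝ) : ℂ) := by push_cast; ring
    rw [norm_div, norm_one, h1, Complex.norm_cpow_eq_rpow_re_of_pos (by positivity)]
    apply one_div_le_one_div_of_le (by positivity)
    rw [← Real.rpow_natCast]
    apply Real.rpow_le_rpow_of_exponent_le _ (by exact_mod_cast hs)
    have : (0 : ℝ) ≤ n := Nat.cast_nonneg n
    linarith
  have hs2 : Summable (fun n : ℕ => 1 / ((n : ℝ) + 1) ^ 2) := by
    have h := (summable_nat_add_iff 1).2 hasSum_zeta_two.summable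
    refine h.congr fun n => ?_
    push_cast
    rfl
  have hz : ∑' n : ℕ, 1 / ((n : ℝ) + 1) ^ 2 = Real.pi ^ 2 / 6 := by
    have h1 := hasSum_zeta_two
    have h2 := h1.summable.tsum_eq_zero_add
    rw [h1.tsum_eq] at h2
    simp only [Nat.cast_zero, ne_eq, OfNat.ofNat_ne_zero, not_false_eq_true, zero_pow, div_zero,
      zero_add, Nat.cast_add, Nat.cast_one] at h2
    exact h2.symm
  refine (tsum_of_norm_bounded hs2.hasSum hterm).trans ?_
  rw [hz]
  have hpi := Real.pi_lt_d2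
  have hpi0 := Real.pi_pos
  nlinarith

lemma fp_re (t : ℝ) : (fp t).re = 4 := by simp [fp]
lemma fp_im (t : ℝ) : (fp t).im = t := by simp [fp]

lemma norm_GG_fp (T Δ t : ℝ) (hΔ : 1 ≤ Δ) :
    ‖GG T Δ (fp t)‖ ≤ Real.exp (49 / 4) * gg T Δ t := by
  have hΔ0 : Δ ≠ 0 := by positivity
  have h1 : (fp t - cp T) / (Δ : ℂ) = (((7 / 2) / Δ : ℝ) : ℂ) + (((t - T) / Δ : ℝ) : ℂ) * I := by
    unfold fp cp
    push_cast
    field_simp
    ring
  unfold GG gg
  rw [Complex.norm_exp, h1, ← Real.exp_add]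
  apply Real.exp_le_exp.2
  have h2 : (((((7 / 2) / Δ : ℝ) : ℂ) + (((t - T) / Δ : ℝ) : ℂ) * I) ^ 2).re =
      ((7 / 2) / Δ) ^ 2 - ((t - T) / Δ) ^ 2 := by
    rw [sq, Complex.mul_re]
    simp
    ring
  rw [h2]
  have h3 : ((7 / 2) / Δ) ^ 2 ≤ 49 / 4 := by
    rw [div_pow, div_le_iff₀ (by positivity)]
    nlinarith
  linarith

lemma integral_gg (T Δ : ℝ) (hΔ : 0 < Δ) : ∫ t : ℝ, gg T Δ t = √Real.pi * Δ := by
  unfold gg
  have h1 : ∀ t : ℝ, Real.exp (-((t - T) / Δ) ^ 2) = Real.exp (-(1 / Δ ^ 2) * (t - T) ^ 2) := by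
    intro t
    congr 1
    field_simp
  simp_rw [h1]
  rw [integral_sub_right_eq_self (fun t : ℝ => Real.exp (-(1 / Δ ^ 2) * t ^ 2)) T,
    integral_gaussian]
  rw [div_div_eq_mul_div, div_one, Real.sqrt_mul Real.pi_pos.le, Real.sqrt_sq hΔ.le]

lemma integrable_gg (T Δ : ℝ) (hΔ : 0 < Δ) : Integrable (fun t : ℝ => gg T Δ t) := by
  unfold gg
  have h1 : ∀ t : ℝ, Real.exp (-((t - T) / Δ) ^ 2) = Real.exp (-(1 / Δ ^ 2) * (t - T) ^ 2) := by
    intro t
    congr 1
    field_simp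
  simp_rw [h1]
  exact (integrable_exp_neg_mul_sq (b := 1 / Δ ^ 2) (by positivity)).comp_sub_right T

theorem qs_qb (h : Pool.Agent.W188.QS.StLine) : Pool.Agent.W188.QS.StQB := by
  obtain ⟨_, _, _, _, _, _, _, _, ⟨K, hK, hX⟩, _⟩ := h
  intro k N hk hN
  have h4k : (0 : ℝ) < 4 ^ k := by positivity
  refine ⟨2 * 4 ^ k * (Real.exp K * 128) * Real.exp (49 / 4) * √Real.pi,
    4 + 8 * Real.exp K, by positivity, ?_⟩
  intro c T Δ a b hc hT hΔ ha hb
  have hexpK : 1 ≤ Real.exp K := Real.one_le_exp hK.le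
  have hT12 : 12 ≤ T := by linarith
  have ha' := abs_le.1 ha
  have hb' := abs_le.1 hb
  have hab : a ≤ b := by linarith
  have hΔ0 : 0 < Δ := by linarith
  -- pointwise bound
  have hpt : ∀ t ∈ Set.Ioc a b, ‖QQ c k N T Δ (fp t)‖ ≤
      (2 * 4 ^ k * (Real.exp K * 128 * T ^ (-(3 : ℝ))) * Real.exp (49 / 4)) * gg T Δ t := by
    intro t ht
    have ht4 : T / 4 ≤ t := by linarith [ht.1]
    have htpos : 0 < t := by linarith
    have hXt := (hX (fp t) (by rw [fp_re]; norm_num) (by rw [fp_re])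
      (by rw [fp_im]; linarith)).1
    rw [fp_re, fp_im] at hXt
    set X := ‖XX (fp t)‖ with hXdef
    have hlow : Real.exp (-K) * (T / 4) ^ (7 / 2 : ℝ) ≤ X := by
      refine le_trans ?_ hXt
      apply mul_le_mul_of_nonneg_left _ (Real.exp_pos _).le
      have : (4 - 1 / 2 : ℝ) = 7 / 2 := by norm_num
      rw [this]
      exact Real.rpow_le_rpow (by linarith) ht4 (by norm_num)
    have hT4 : 1 ≤ T / 4 := by linarith
    have hpow1 : T / 4 ≤ (T / 4) ^ (7 / 2 : ℝ) := by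
      calc T / 4 = (T / 4) ^ (1 : ℝ) := (Real.rpow_one _).symm
        _ ≤ (T / 4) ^ (7 / 2 : ℝ) := Real.rpow_le_rpow_of_exponent_le hT4 (by norm_num)
    have hX2 : 2 ≤ X := by
      refine le_trans ?_ hlow
      rw [Real.exp_neg, inv_mul_eq_div, le_div_iff₀ (Real.exp_pos _)]
      linarith
    have hXpos : 0 < X := by linarith
    have hpow3 : T ^ (3 : ℝ) / 128 ≤ (T / 4) ^ (7 / 2 : ℝ) := by
      rw [Real.div_rpow (by linarith) (by norm_num)]
      have h4 : (4 : ℝ) ^ (7 / 2 : ℝ) = 128 := by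
        rw [show (4 : ℝ) = 2 ^ (2 : ℝ) by norm_num, ← Real.rpow_mul (by norm_num)]
        norm_num
      rw [h4]
      apply div_le_div_of_nonneg_right _ (by norm_num)
      exact Real.rpow_le_rpow_of_exponent_le (by linarith) (by norm_num)
    have hXinv : X⁻¹ ≤ Real.exp K * 128 * T ^ (-(3 : ℝ)) := by
      have hT3 : 0 < T ^ (3 : ℝ) := Real.rpow_pos_of_pos (by linarith) _
      have h1 : Real.exp (-K) * (T ^ (3 : ℝ) / 128) ≤ X :=
        le_trans (mul_le_mul_of_nonneg_left hpow3 (Real.exp_pos _).le) hlow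
      calc X⁻¹ ≤ (Real.exp (-K) * (T ^ (3 : ℝ) / 128))⁻¹ :=
            inv_anti₀ (by positivity) h1
        _ = Real.exp K * 128 * T ^ (-(3 : ℝ)) := by
            rw [Real.rpow_neg (by linarith), Real.exp_neg, mul_inv, inv_inv, inv_div]
            rw [div_eq_mul_inv]
            ring
    -- the pieces
    have hww : ‖ww c N (fp t)‖ = (X⁻¹) ^ N := by
      unfold ww
      rw [norm_mul, hc, one_mul, norm_pow, norm_inv]
    have hXinv1 : X⁻¹ ≤ 1 / 2 := by
      rw [one_div]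
      exact inv_anti₀ (by norm_num) hX2
    have hXinv0 : 0 ≤ X⁻¹ := inv_nonneg.2 hXpos.le
    have hww2 : ‖ww c N (fp t)‖ ≤ 1 / 2 := by
      rw [hww]
      calc (X⁻¹) ^ N ≤ X⁻¹ ^ 1 := pow_le_pow_of_le_one hXinv0 (by linarith) (by omega)
        _ ≤ 1 / 2 := by rw [pow_one]; exact hXinv1
    have hden : 1 / 2 ≤ ‖1 - ww c N (fp t)‖ := by
      have := norm_sub_norm_le (1 : ℂ) (ww c N (fp t))
      rw [norm_one] at this
      linarith
    have hFF : ‖FF k (fp t)‖ ≤ 4 ^ k * X ^ k := by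
      unfold FF
      rw [norm_mul, norm_pow, norm_pow, pow_mul]
      apply mul_le_mul_of_nonneg_right _ (by positivity)
      have hz := norm_zeta_le_two (s := fp t) (by rw [fp_re]; norm_num)
      apply pow_le_pow_left₀ (by positivity)
      nlinarith [norm_nonneg (riemannZeta (fp t))]
    have hFw : ‖FF k (fp t)‖ * ‖ww c N (fp t)‖ ≤ 4 ^ k * X⁻¹ := by
      rw [hww]
      calc ‖FF k (fp t)‖ * X⁻¹ ^ N ≤ (4 ^ k * X ^ k) * X⁻¹ ^ N :=
            mul_le_mul_of_nonneg_right hFF (by positivity)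
        _ ≤ (4 ^ k * X ^ k) * X⁻¹ ^ (k + 1) := by
            apply mul_le_mul_of_nonneg_left _ (by positivity)
            exact pow_le_pow_of_le_one hXinv0 (by linarith) hN
        _ = 4 ^ k * X⁻¹ := by
            rw [pow_succ, mul_assoc, ← mul_assoc (X ^ k), ← mul_pow, mul_inv_cancel₀ hXpos.ne',
              one_pow, one_mul]
    have hGG := norm_GG_fp T Δ t hΔ
    have hgg0 : 0 ≤ gg T Δ t := (Real.exp_pos _).le
    unfold QQ
    rw [norm_div, norm_mul, norm_mul, div_le_iff₀ (by linarith)]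
    have hM : 0 ≤ 4 ^ k * (Real.exp K * 128 * T ^ (-(3 : ℝ))) :=
      mul_nonneg h4k.le (le_trans hXinv0 hXinv)
    calc ‖FF k (fp t)‖ * ‖GG T Δ (fp t)‖ * ‖ww c N (fp t)‖ =
        (‖FF k (fp t)‖ * ‖ww c N (fp t)‖) * ‖GG T Δ (fp t)‖ := by ring
      _ ≤ (4 ^ k * X⁻¹) * (Real.exp (49 / 4) * gg T Δ t) :=
          mul_le_mul hFw hGG (norm_nonneg _) (by positivity)
      _ ≤ (4 ^ k * (Real.exp K * 128 * T ^ (-(3 : ℝ)))) * (Real.exp (49 / 4) * gg T Δ t) := by
          apply mul_le_mul_of_nonneg_right _ (by positivity)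
          exact mul_le_mul_of_nonneg_left hXinv h4k.le
      _ = (2 * 4 ^ k * (Real.exp K * 128 * T ^ (-(3 : ℝ))) * Real.exp (49 / 4)) * gg T Δ t *
          (1 / 2) := by ring
      _ ≤ _ := by
          apply mul_le_mul_of_nonneg_left hden
          apply mul_nonneg _ hgg0
          apply mul_nonneg _ (Real.exp_pos _).le
          nlinarith
  have hint : IntervalIntegrable (fun t : ℝ =>
      (2 * 4 ^ k * (Real.exp K * 128 * T ^ (-(3 : ℝ))) * Real.exp (49 / 4)) * gg T Δ t)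
      volume a b :=
    ((integrable_gg T Δ hΔ0).const_mul _).intervalIntegrable
  have h1 := intervalIntegral.norm_integral_le_of_norm_le hab
    (Filter.Eventually.of_forall hpt) hint
  refine h1.trans ?_
  rw [intervalIntegral.integral_const_mul]
  have hgle : ∫ t in a..b, gg T Δ t ≤ √Real.pi * Δ := by
    rw [← integral_gg T Δ hΔ0, intervalIntegral.integral_of_le hab]
    exact setIntegral_le_integral (integrable_gg T Δ hΔ0)
      (Filter.Eventually.of_forall fun t => (Real.exp_pos _).le)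
  have hT3' : 0 ≤ T ^ (-(3 : ℝ)) := Real.rpow_nonneg (by linarith) _
  calc (2 * 4 ^ k * (Real.exp K * 128 * T ^ (-(3 : ℝ))) * Real.exp (49 / 4)) *
        ∫ t in a..b, gg T Δ t ≤
      (2 * 4 ^ k * (Real.exp K * 128 * T ^ (-(3 : ℝ))) * Real.exp (49 / 4)) * (√Real.pi * Δ) :=
        mul_le_mul_of_nonneg_left hgle (by positivity)
    _ = _ := by ring

end Pool.Agent.W327.QS
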